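import Mathlib
import Pool.Agent.Helper31.StarFiniteB

set_option autoImplicit false

open Set Metric

namespace Pool.Agent.Results.MP_a8a0a5_an.DominatedDirections

universe u v

/-- `d` is dominated by a bounded weakly null net. -/
def Dominated {E : Type u} [NormedAddCommGroup E] [NormedSpace ℝ E] (d : E) : Prop :=
  ∃ K : ℝ, ∀ (A : Finset E) (F : Finset (E →L[ℝ] ℝ)) (ε : ℝ), 0 < ε →
    ∃ w : E, ‖w‖ ≤ K ∧ (∀ f ∈ F, |f w| < ε) ∧ ∀ a ∈ A, ‖a + d‖ ≤ ‖a + w‖ + ε

/-- If an infinite-dimensional separable real Banach space `E` has a star-finite covering by closed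
balls (of positive radius), then on some nonempty open set the norm is locally constant in every
dominated direction.  Hence the dominated vectors are not dense; in particular the norm of `E` is
not octahedral. -/
theorem result {E : Type u} [NormedAddCommGroup E] [NormedSpace ℝ E] [CompleteSpace E]
    [TopologicalSpace.SeparableSpace E] (hE : ¬ FiniteDimensional ℝ E)
    {ι : Type v} (c : ι → E) (r : ι → ℝ) (hr : ∀ i, 0 < r i)
    (hcov : (⋃ i, closedBall (c i) (r i)) = univ)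
    (hstar : ∀ i, {j : ι | (closedBall (c i) (r i) ∩ closedBall (c j) (r j)).Nonempty}.Finite) :
    (∃ G : Set E, IsOpen G ∧ G.Nonempty ∧ ∀ d : E, Dominated d → ∀ u ∈ G,
      ∃ s₀ : ℝ, 0 < s₀ ∧ ∀ s : ℝ, |s| ≤ s₀ → ‖u + s • d‖ = ‖u‖) ∧
    ¬ Dense {d : E | Dominated d} ∧
    ¬ ∀ A : Finset E, (∀ a ∈ A, ‖a‖ = 1) → ∀ ε : ℝ, 0 < ε →
      ∃ y : E, ‖y‖ = 1 ∧ ∀ a ∈ A, 2 - ε ≤ ‖a + y‖ :=
  ⟨Pool.Agent.Helper31.StarFiniteB.locally_constant hE hr hcov hstar,
    Pool.Agent.Helper31.StarFiniteB.not_dense_dominated hE hr hcov hstar,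
    Pool.Agent.Helper31.StarFiniteB.not_octahedral hE hr hcov hstar⟩

end Pool.Agent.Results.MP_a8a0a5_an.DominatedDirections
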