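import Mathlib
import Pool.Agent.Helper31.StarFiniteDual3

set_option autoImplicit false

open Set Metric Filter Topology

namespace Pool.Agent.Results.MP_a8a0a5_an.DualSpaces

universe u v w

/-- Let `E` be an infinite-dimensional separable real Banach space with a star-finite covering by
closed balls (of positive radius).  If `E` is isometric to the dual of a normed space `F`, then
there are `e n` in the unit ball of `E` converging weak* to a vector `h` of norm one with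
`‖e n - h‖ → 2`.  In particular `E` has no boundedly complete finite dimensional decomposition
whose partial sum projections `P m` have norm at most one and satisfy `‖I - P m‖ ≤ lam < 2` for
infinitely many `m`. -/
theorem result {E : Type u} [NormedAddCommGroup E] [NormedSpace ℝ E] [CompleteSpace E]
    [TopologicalSpace.SeparableSpace E] (hE : ¬ FiniteDimensional ℝ E)
    {ι : Type v} (c : ι → E) (r : ι → ℝ) (hr : ∀ i, 0 < r i)
    (hcov : (⋃ i, closedBall (c i) (r i)) = univ)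
    (hstar : ∀ i, {j : ι | (closedBall (c i) (r i) ∩ closedBall (c j) (r j)).Nonempty}.Finite) :
    (∀ (F : Type w) [NormedAddCommGroup F] [NormedSpace ℝ F] (Φ : E ≃ₗᵢ[ℝ] (F →L[ℝ] ℝ)),
      ∃ (e : ℕ → E) (h : E), (∀ n, ‖e n‖ ≤ 1) ∧ ‖h‖ = 1 ∧
        (∀ y : F, Tendsto (fun n => Φ (e n) y) atTop (𝓝 (Φ h y))) ∧
        Tendsto (fun n => ‖e n - h‖) atTop (𝓝 2)) ∧
    ¬ ∃ (P : ℕ → E →L[ℝ] E) (lam : ℝ), lam < 2 ∧
      (∀ m, FiniteDimensional ℝ (LinearMap.range (P m : E →ₗ[ℝ] E))) ∧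
      (∀ x, Tendsto (fun m => P m x) atTop (𝓝 x)) ∧
      (∀ m n, m ≤ n → ∀ x, P m (P n x) = P m x) ∧
      (∀ v : ℕ → E, (∀ m n, m ≤ n → P m (v n) = v m) → (∃ M : ℝ, ∀ n, ‖v n‖ ≤ M) →
        ∃ h, Tendsto v atTop (𝓝 h)) ∧
      (∀ m x, ‖P m x‖ ≤ ‖x‖) ∧
      ∃ᶠ m in atTop, ∀ x, ‖x - P m x‖ ≤ lam * ‖x‖ := by
  refine ⟨?_, ?_⟩
  · intro F _ _ Φ
    exact Pool.Agent.Helper31.StarFiniteDual.iso_main hE hr hcov hstar Φ
  · rintro ⟨P, lam, hlam, hP1, hP2, hP3, hP5, hP4, hP6⟩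
    exact Pool.Agent.Helper31.StarFiniteDual.fdd_main hE hP1 hP2 hP3 hP4 hP5 hlam hP6 hr hcov hstar

end Pool.Agent.Results.MP_a8a0a5_an.DualSpaces
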