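import Mathlib
import Pool.Agent.Helper29.SF.Cor2

set_option autoImplicit false

open Set Metric

namespace Pool.Agent.Results.MP_a8a0a5_an.RoughOffBalls

universe u v

/-- If an infinite-dimensional separable real Banach space `E` has a star-finite covering by closed
balls (of positive radius), then the norm of `E` is two-sidedly `2`-rough at every unit vector
outside a finite union of closed balls which misses a point of the open unit ball.  Hence the norm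
is `2`-rough, and not Fréchet differentiable, near a whole finite-codimensional affine section of
the unit sphere through the open unit ball, and every infinite-dimensional `M`-summand of `E`
(in particular `E` itself) has a nonseparable dual. -/
theorem result {E : Type u} [NormedAddCommGroup E] [NormedSpace ℝ E] [CompleteSpace E]
    [TopologicalSpace.SeparableSpace E] (hE : ¬ FiniteDimensional ℝ E)
    {ι : Type v} (c : ι → E) (r : ι → ℝ) (hr : ∀ i, 0 < r i)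
    (hcov : (⋃ i, closedBall (c i) (r i)) = univ)
    (hstar : ∀ i, {j : ι | (closedBall (c i) (r i) ∩ closedBall (c j) (r j)).Nonempty}.Finite) :
    (∃ p : E, ‖p‖ < 1 ∧ ∃ D : Finset (E × ℝ), (∀ d ∈ D, 0 < d.2 ∧ p ∉ closedBall d.1 d.2) ∧
      ∀ v : E, ‖v‖ = 1 → (∀ d ∈ D, v ∉ closedBall d.1 d.2) → ∀ η : ℝ, 0 < η →
        ∃ w : E, ‖w‖ ≤ 1 ∧ 2 - η ≤ ‖v + w‖ ∧ 2 - η ≤ ‖v - w‖) ∧
    (∃ p : E, ‖p‖ < 1 ∧ ∃ F : Finset (E →L[ℝ] ℝ),
      (∃ v : E, ‖v‖ = 1 ∧ ∀ f ∈ F, f v = f p) ∧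
      ∀ v : E, ‖v‖ = 1 → (∀ f ∈ F, f v = f p) → ∃ δ : ℝ, 0 < δ ∧ ∀ u : E, ‖u - v‖ < δ →
        (∀ η : ℝ, 0 < η →
          ∃ w : E, ‖w‖ ≤ ‖u‖ ∧ (2 - η) * ‖u‖ ≤ ‖u + w‖ ∧ (2 - η) * ‖u‖ ≤ ‖u - w‖) ∧
        ¬ DifferentiableAt ℝ (fun x : E => ‖x‖) u) ∧
    (∀ (Z : Submodule ℝ E) (P : E →L[ℝ] E), (∀ x, P x ∈ Z) → (∀ z ∈ Z, P z = z) →
      (∀ x, ‖x‖ = max ‖P x‖ ‖x - P x‖) → ¬ FiniteDimensional ℝ Z →
      ¬ TopologicalSpace.SeparableSpace (Z →L[ℝ] ℝ)) ∧
    ¬ TopologicalSpace.SeparableSpace (E →L[ℝ] ℝ) := by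
  refine ⟨Pool.Agent.Helper29.SF.rough_off_balls hr hcov hstar,
    Pool.Agent.Helper29.SF.rough_slice hE hr hcov hstar,
    fun Z P hPZ hP hM hZ => Pool.Agent.Helper29.SF.m_summand hr hcov hstar Z P hPZ hP hM hZ, ?_⟩
  obtain ⟨G, hGo, hGn, hG⟩ := Pool.Agent.Helper50.StarFinite.rough hE hr hcov hstar
  exact Pool.Agent.Helper50.StarFinite.not_separable_dual hGo hGn hG

end Pool.Agent.Results.MP_a8a0a5_an.RoughOffBalls
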