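import Mathlib
import Pool.Agent.Helper29.SF.Main

set_option autoImplicit false

open Set Metric

namespace Pool.Agent.Results.MP_a8a0a5_an.UnboundedOrder

universe u v

/-- If an infinite-dimensional separable real Banach space `E` has a star-finite covering by closed
balls (of positive radius), then some point `z` of `E` is a limit of points of arbitrarily high
multiplicity.  In particular no such covering has bounded order, and in no such covering does each
ball meet at most `n` others. -/
theorem result {E : Type u} [NormedAddCommGroup E] [NormedSpace ℝ E] [CompleteSpace E]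
    [TopologicalSpace.SeparableSpace E] (hE : ¬ FiniteDimensional ℝ E)
    {ι : Type v} (c : ι → E) (r : ι → ℝ) (hr : ∀ i, 0 < r i)
    (hcov : (⋃ i, closedBall (c i) (r i)) = univ)
    (hstar : ∀ i, {j : ι | (closedBall (c i) (r i) ∩ closedBall (c j) (r j)).Nonempty}.Finite) :
    ∃ z : E, ∀ ε : ℝ, 0 < ε → ∀ n : ℕ, ∃ p : E, ‖p - z‖ < ε ∧
      ∃ s : Finset ι, n ≤ s.card ∧ ∀ i ∈ s, p ∈ closedBall (c i) (r i) :=
  Pool.Agent.Helper29.SF.unbounded_order hE hr hcov hstar

end Pool.Agent.Results.MP_a8a0a5_an.UnboundedOrder
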